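import Pool.Agent.Run7.h178.SL.Fin3

/-!
# After slides of the 2-cells all complexes `L - e` are aspherical, with the group `F_m ⋊ ℤ`

Definitions (`Pool.Agent.R655.LI.Defs`, `.Asph` of the starting library, `Run7.h178.SL.Stm`, `.Main2`,
`.Fin3`):

* `Cx`: a 2-complex with one vertex, 1-cells `V`, 2-cells `R`, attaching words `r : R → FreeGroup V`;
  `L.Pi` its fundamental group; `L.del e`: the 2-cell `e` is removed;
* `Acyclic L`: finitely many cells, as many 2-cells as 1-cells, and `H₁(L) = 0` (the exponent sum vectors
  of the attaching words generate `ℤ ^ V`); every finite contractible 2-complex with one vertex is such;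
* `Asph K`: the boundary operator `C₂ → C₁` of the universal covering of `K` is injective, i.e.
  `π₂(K) = 0`;
* `FgFreeByInt G`: some surjective homomorphism `G → ℤ` has a finitely generated free kernel, so
  `G = F_m ⋊ ℤ`;
* `QEq r r'`: the family `r'` of words is obtained from `r` by finitely many slides `QStep`: a word `r j` is
  multiplied by another word `r k` of the family, or inverted, or conjugated. (So the 2-complex of `r'` is
  obtained from the 2-complex of `r` by a 3-deformation which does not change the 1-skeleton.)

Proof: see `Pool.Agent.Results.MP_cf50d6_gt.AfterSlides`; Howie's theorem (locally indicable fundamental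
group and injective boundary operator imply asphericity) is used for subcomplexes of acyclic 2-complexes
(`Run7.h178.SL.Acyc`).
-/

set_option autoImplicit false

namespace Pool.Agent.Results.MP_75ccdc_gt.AfterSlides

open Pool.Agent.R655.LI Run7.h178.SL Function

/-- The attaching words of the 2-cells of a finite contractible, or only acyclic 2-complex `L` (with one
vertex) can be changed by finitely many slides, which do not change the fundamental group, such that
for the new 2-complex `L'` the complexes `L' - e` are aspherical and their fundamental groups are
`F_m ⋊ ℤ`, `F_m` free of finite rank, for all 2-cells `e`. In the contractible case `L'` is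
contractible. -/
theorem result :
    (∀ (L : Cx) [DecidableEq L.R], Acyclic L →
      ∃ r' : L.R → FreeGroup L.V, QEq L.r r' ∧
        Subgroup.normalClosure (Set.range r') = Subgroup.normalClosure (Set.range L.r) ∧
        ∀ e : L.R, Asph ((Cx.mk L.V L.R r').del e) ∧
          FgFreeByInt ((Cx.mk L.V L.R r').del e).Pi) ∧
    (∀ (L : Cx) [DecidableEq L.R], L.Contractible → L.IsFin →
      ∃ r' : L.R → FreeGroup L.V, QEq L.r r' ∧ (Cx.mk L.V L.R r').Contractible ∧
        ∀ e : L.R, Asph ((Cx.mk L.V L.R r').del e) ∧
          FgFreeByInt ((Cx.mk L.V L.R r').del e).Pi) := by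
  refine ⟨fun L _ h => dels L h, fun L _ h hf => ?_⟩
  obtain ⟨r', h1, h2, h3, h4⟩ := contractible2 L h hf
  exact ⟨r', h1, h2, fun e => ⟨(h4 _ (delSub (Cx.mk L.V L.R r') e)).2.2, h3 e⟩⟩

end Pool.Agent.Results.MP_75ccdc_gt.AfterSlides
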